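import Pool.Agent.helper66.WD.Spec

universe u

namespace Pool.Agent.WD

open MvPolynomial Pool.Agent.helper92.VC

section pad

variable {S : Type*} [CommRing S] {w : ℕ}

/-- a matrix with one more row and column of zeros -/
def NZR_padM (N : Matrix (Fin w) (Fin w) S) : Matrix (Fin (w + 1)) (Fin (w + 1)) S :=
  fun s t => Fin.lastCases (motive := fun _ => S) 0
    (fun s' => Fin.lastCases (motive := fun _ => S) 0 (fun t' => N s' t') t) s

/-- a vector with one more zero -/
def NZR_padV (v : Fin w → S) : Fin (w + 1) → S :=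
  fun s => Fin.lastCases (motive := fun _ => S) 0 (fun s' => v s') s

lemma NZR_pad_mulVec (N : Matrix (Fin w) (Fin w) S) (v : Fin w → S) :
    Matrix.mulVec (NZR_padM N) (NZR_padV v) = NZR_padV (Matrix.mulVec N v) := by
  funext s
  refine Fin.lastCases ?_ (fun s' => ?_) s
  · simp [Matrix.mulVec, dotProduct, NZR_padM, NZR_padV, Fin.sum_univ_castSucc]
  · simp [Matrix.mulVec, dotProduct, NZR_padM, NZR_padV, Fin.sum_univ_castSucc]

lemma NZR_pad_dot (u v : Fin w → S) : NZR_padV u ⬝ᵥ NZR_padV v = u ⬝ᵥ v := by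
  simp [dotProduct, NZR_padV, Fin.sum_univ_castSucc]

lemma NZR_pad_list (L : List (Matrix (Fin w) (Fin w) S)) (v : Fin w → S) :
    Matrix.mulVec (L.map NZR_padM).prod (NZR_padV v) = NZR_padV (Matrix.mulVec L.prod v) := by
  induction L with
  | nil => simp
  | cons N L ih =>
    rw [List.map_cons, List.prod_cons, List.prod_cons, ← Matrix.mulVec_mulVec, ih, NZR_pad_mulVec,
      Matrix.mulVec_mulVec]

end pad

lemma NZR_pad {K : Type u} [Field K] {n : ℕ} (τ : Equiv.Perm (Fin n)) (w : ℕ)
    (A : MvPolynomial (Fin n) K) (h : IsROABPOrd τ w A) : IsROABPOrd τ (w + 1) A := by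
  obtain ⟨M, u, v, hA⟩ := h
  refine ⟨fun i => NZR_padM (M i), NZR_padV u, NZR_padV v, ?_⟩
  have hv : ∀ x : Fin w → K, (fun s => (C (NZR_padV x s) : MvPolynomial (Fin n) K)) =
      NZR_padV (fun s => C (x s)) := by
    intro x
    funext s
    refine Fin.lastCases ?_ (fun s' => ?_) s
    · simp [NZR_padV]
    · simp [NZR_padV]
  have hM : (List.ofFn fun i : Fin n =>
        (NZR_padM (M i)).map fun p => Polynomial.aeval (X (τ i) : MvPolynomial (Fin n) K) p) =
      (List.ofFn fun i : Fin n =>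
        (M i).map fun p => Polynomial.aeval (X (τ i) : MvPolynomial (Fin n) K) p).map NZR_padM := by
    rw [List.map_ofFn]
    congr 1
    funext i
    ext s t : 2
    refine Fin.lastCases ?_ (fun s' => ?_) s
    · simp [NZR_padM, Matrix.map]
    · refine Fin.lastCases ?_ (fun t' => ?_) t
      · simp [NZR_padM, Matrix.map]
      · simp [NZR_padM, Matrix.map]
  rw [hv, hv, hM, NZR_pad_list, NZR_pad_dot]
  exact hA

lemma NZR_one {K : Type u} [Field K] {n : ℕ} (τ : Equiv.Perm (Fin n)) (w : ℕ) :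
    IsROABPOrd τ (w + 1) (1 : MvPolynomial (Fin n) K) := by
  refine ⟨fun _ => 1, fun s => if s = 0 then 1 else 0, fun s => if s = 0 then 1 else 0, ?_⟩
  have hM : (List.ofFn fun i : Fin n =>
        ((1 : Matrix (Fin (w + 1)) (Fin (w + 1)) (Polynomial K))).map
          fun p => Polynomial.aeval (X (τ i) : MvPolynomial (Fin n) K) p).prod = 1 := by
    apply List.prod_eq_one
    intro x hx
    rw [List.mem_ofFn] at hx
    obtain ⟨i, rfl⟩ := hx
    apply Matrix.map_one
    · exact map_zero _
    · exact map_one _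
  rw [hM, Matrix.one_mulVec]
  simp [dotProduct]

theorem NZR (hNRM : NRM_stmt.{u}) : NZR_stmt.{u} := by
  classical
  intro R K k _ _ _ _ _ _ _ π n c w G hG
  obtain ⟨τ, A, P, κ, a, p, hA, hP, hG⟩ := hG
  -- normalised local factors
  have hex : ∀ j : Fin w, ∃ (lam : K) (P' : MvPolynomial (Fin n) R), lam ≠ 0 ∧
      IsLocal τ c (MvPolynomial.map (algebraMap R K) P') ∧ MvPolynomial.map π P' ≠ 0 ∧
      (P j ≠ 0 → MvPolynomial.map (algebraMap R K) P' = C lam * P j) := by
    intro j
    obtain ⟨g, Q, hg, hPQ⟩ := hP j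
    by_cases h0 : P j = 0
    · refine ⟨1, 1, one_ne_zero, ?_, ?_, fun h => absurd h0 h⟩
      · refine ⟨g, 1, hg, ?_⟩
        rw [map_one, map_one]
      · rw [map_one]
        exact one_ne_zero
    · obtain ⟨lam, F', h1, h2, m, hm, h3⟩ := hNRM R K k π (Fin n) 0 (fun _ => P j) ⟨0, le_rfl, h0⟩
      have hm0 : m = 0 := by omega
      subst hm0
      refine ⟨lam, F' 0, h1, ?_, h3, fun _ => h2 0 le_rfl⟩
      refine ⟨g, C lam * Q, hg, ?_⟩
      rw [h2 0 le_rfl, map_mul, algHom_C, hPQ]
      rfl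
  choose lam P' hlam hloc hπ hmap using hex
  refine ⟨τ, fun j => if A j = 0 then 1 else A j, P',
    fun i => if (∃ j, A j = 0 ∧ a i j ≠ 0) ∨ (∃ j, P j = 0 ∧ p i j ≠ 0) then 0 else
      κ i * ∏ j, (lam j)⁻¹ ^ p i j, a, p, ?_, ?_, hloc, hπ, ?_⟩
  · intro j
    simp only
    split_ifs with h
    · exact NZR_one τ w
    · exact NZR_pad τ w (A j) (hA j)
  · intro j
    simp only
    split_ifs with h
    · exact one_ne_zero
    · exact h
  · rw [hG]
    refine Finset.sum_congr rfl fun i _ => ?_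
    beta_reduce
    split_ifs with hz
    · rw [C_0, zero_mul, zero_mul]
      rcases hz with ⟨j, hj1, hj2⟩ | ⟨j, hj1, hj2⟩
      · have : ∏ j, A j ^ a i j = 0 := by
          apply Finset.prod_eq_zero (Finset.mem_univ j)
          rw [hj1, zero_pow hj2]
        rw [this, mul_zero, zero_mul]
      · have : ∏ j, P j ^ p i j = 0 := by
          apply Finset.prod_eq_zero (Finset.mem_univ j)
          rw [hj1, zero_pow hj2]
        rw [this, mul_zero]
    · push Not at hz
      obtain ⟨hz1, hz2⟩ := hz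
      have e1 : ∏ j, A j ^ a i j = ∏ j, (if A j = 0 then 1 else A j) ^ a i j := by
        refine Finset.prod_congr rfl fun j _ => ?_
        split_ifs with h
        · rw [hz1 j h, pow_zero, pow_zero]
        · rfl
      have e2 : ∏ j, P j ^ p i j = C (∏ j, (lam j)⁻¹ ^ p i j) *
          ∏ j, (MvPolynomial.map (algebraMap R K) (P' j)) ^ p i j := by
        rw [map_prod, ← Finset.prod_mul_distrib]
        refine Finset.prod_congr rfl fun j _ => ?_
        by_cases h : P j = 0
        · rw [hz2 j h, pow_zero, pow_zero, pow_zero, C_1, one_mul]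
        · rw [hmap j h, C_pow, ← mul_pow, ← mul_assoc, ← C_mul, inv_mul_cancel₀ (hlam j), C_1, one_mul]
      rw [← e1, e2, C_mul]
      ring

end Pool.Agent.WD
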