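import Pool.Agent.helper66.WD.Spec

universe u

namespace Pool.Agent.WD

open MvPolynomial Pool.Agent.helper92.VC

/-- homogeneous components of a product -/
lemma ODA_hc_mul {σ : Type*} {R : Type*} [CommRing R] (h : ℕ) (p q : MvPolynomial σ R) :
    homogeneousComponent h (p * q) =
      ∑ a ∈ Finset.range (h + 1), homogeneousComponent a p * homogeneousComponent (h - a) q := by
  classical
  ext d
  rw [coeff_homogeneousComponent, coeff_sum]
  simp_rw [coeff_mul, coeff_homogeneousComponent]
  rw [Finset.sum_comm]
  split_ifs with hd
  · refine Finset.sum_congr rfl (fun xy hxy => ?_)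
    have hdeg : xy.1.degree + xy.2.degree = h := by
      rw [← hd, ← Finset.HasAntidiagonal.mem_antidiagonal.mp hxy]
      exact (map_add Finsupp.degree xy.1 xy.2).symm
    rw [Finset.sum_eq_single xy.1.degree]
    · rw [if_pos rfl, if_pos (by omega)]
    · intro b _ hb
      rw [if_neg (Ne.symm hb), zero_mul]
    · intro hn
      exfalso
      apply hn
      rw [Finset.mem_range]
      omega
  · symm
    apply Finset.sum_eq_zero
    intro xy hxy
    apply Finset.sum_eq_zero
    intro a ha
    rw [Finset.mem_range] at ha
    have hdeg : xy.1.degree + xy.2.degree = d.degree := by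
      rw [← Finset.HasAntidiagonal.mem_antidiagonal.mp hxy]
      exact (map_add Finsupp.degree xy.1 xy.2).symm
    by_cases h1 : xy.1.degree = a
    · by_cases h2 : xy.2.degree = h - a
      · exfalso
        apply hd
        omega
      · rw [if_neg h2, mul_zero]
    · rw [if_neg h1, zero_mul]

lemma ODA_hc0 {n : ℕ} {K : Type*} [CommRing K] (β : Fin n → K) (p : MvPolynomial (Fin n) K) :
    homogeneousComponent 0 (shift β p) = C (eval β p) := by
  rw [homogeneousComponent_zero]
  congr 1
  have h : ((constantCoeff : MvPolynomial (Fin n) K →+* K).comp (shift β).toRingHom) = eval β := by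
    apply MvPolynomial.ringHom_ext
    · intro r
      simp [shift]
    · intro i
      simp [shift]
  have h2 := congrArg (fun f : MvPolynomial (Fin n) K →+* K => f p) h
  exact h2

theorem ODA (hLIN : LIN_stmt.{u}) : ODA_stmt.{u} := by
  intro n r k _ _ f α β c hrel hq j h
  set q := eval β (PowerSeries.coeff 0 (c r)) with hqdef
  -- the coefficient of z^j
  have h1 : ∑ m ∈ Finset.range (r + 1), ∑ i ∈ Finset.range (j + 1),
      PowerSeries.coeff i (c m) * (((j - i + 1).ascFactorial m : ℕ) : MvPolynomial (Fin n) k) *
        homogeneousComponent (j - i + m) (shift α f) = 0 := by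
    have e1 := congrArg (PowerSeries.coeff j) hrel
    rw [map_sum, map_zero] at e1
    rw [← e1]
    refine Finset.sum_congr rfl fun m _ => ?_
    rw [PowerSeries.coeff_mul, Finset.Nat.sum_antidiagonal_eq_sum_range_succ_mk]
    refine Finset.sum_congr rfl fun i _ => ?_
    have e2 : (dz : PowerSeries (MvPolynomial (Fin n) k) → PowerSeries (MvPolynomial (Fin n) k)) =
        ⇑(PowerSeries.derivative (MvPolynomial (Fin n) k)) := rfl
    rw [e2]
    simp only
    rw [PowerSeries.coeff_iterate_derivative, hLIN n k α f, mul_assoc]
  -- shift and component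
  have h2 : ∑ m ∈ Finset.range (r + 1), ∑ i ∈ Finset.range (j + 1), ∑ a ∈ Finset.range (h + 1),
      C (((j - i + 1).ascFactorial m : ℕ) : k) *
        (homogeneousComponent a (shift β (PowerSeries.coeff i (c m))) *
          homogeneousComponent (h - a)
            (shift β (homogeneousComponent (j - i + m) (shift α f)))) = 0 := by
    have e1 := congrArg (fun p => homogeneousComponent h (shift β p)) h1
    simp only [map_sum, map_zero] at e1
    rw [← e1]
    refine Finset.sum_congr rfl fun m _ => Finset.sum_congr rfl fun i _ => ?_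
    have e3 : shift β (PowerSeries.coeff i (c m) * (((j - i + 1).ascFactorial m : ℕ) : MvPolynomial (Fin n) k) *
        (homogeneousComponent (j - i + m) (shift α f))) =
        C (((j - i + 1).ascFactorial m : ℕ) : k) * (shift β (PowerSeries.coeff i (c m)) *
        shift β (homogeneousComponent (j - i + m) (shift α f))) := by
      rw [map_mul, map_mul, map_natCast, map_natCast]
      ring
    rw [e3, homogeneousComponent_C_mul, ODA_hc_mul, Finset.mul_sum]
  set N : ℕ → ℕ → k := fun m i => (((j - i + 1).ascFactorial m : ℕ) : k) with hN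
  have hN0 : N r 0 ≠ 0 := by
    rw [hN]
    simp only
    exact_mod_cast (Nat.ascFactorial_pos _ _).ne'
  refine ⟨fun m i a => (N r 0 * q)⁻¹ * ((if m = r ∧ i = 0 ∧ a = 0 then N r 0 else 0) - N m i), ?_, ?_⟩
  · simp
  · set T : ℕ → ℕ → ℕ → MvPolynomial (Fin n) k := fun m i a =>
      homogeneousComponent a (shift β (PowerSeries.coeff i (c m))) *
          homogeneousComponent (h - a)
            (shift β (homogeneousComponent (j - i + m) (shift α f))) with hT
    have e1 : ∑ m ∈ Finset.range (r + 1), ∑ i ∈ Finset.range (j + 1), ∑ a ∈ Finset.range (h + 1),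
        C ((N r 0 * q)⁻¹ * ((if m = r ∧ i = 0 ∧ a = 0 then N r 0 else 0) - N m i)) *
          homogeneousComponent a (shift β (PowerSeries.coeff i (c m))) *
          homogeneousComponent (h - a)
            (shift β (homogeneousComponent (j - i + m) (shift α f))) =
        C ((N r 0 * q)⁻¹) * ((∑ m ∈ Finset.range (r + 1), ∑ i ∈ Finset.range (j + 1),
          ∑ a ∈ Finset.range (h + 1), (if m = r ∧ i = 0 ∧ a = 0 then C (N r 0) * T m i a else 0)) -
          ∑ m ∈ Finset.range (r + 1), ∑ i ∈ Finset.range (j + 1), ∑ a ∈ Finset.range (h + 1),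
            C (N m i) * T m i a) := by
      rw [← Finset.sum_sub_distrib, Finset.mul_sum]
      refine Finset.sum_congr rfl fun m _ => ?_
      rw [← Finset.sum_sub_distrib, Finset.mul_sum]
      refine Finset.sum_congr rfl fun i _ => ?_
      rw [← Finset.sum_sub_distrib, Finset.mul_sum]
      refine Finset.sum_congr rfl fun a _ => ?_
      rw [C_mul, C_sub]
      split_ifs
      · rw [hT]
        ring
      · rw [hT, C_0]
        ring
    rw [e1]
    have e2 : ∑ m ∈ Finset.range (r + 1), ∑ i ∈ Finset.range (j + 1), ∑ a ∈ Finset.range (h + 1),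
            C (N m i) * T m i a = 0 := h2
    rw [e2, sub_zero]
    have e3 : ∑ m ∈ Finset.range (r + 1), ∑ i ∈ Finset.range (j + 1),
          ∑ a ∈ Finset.range (h + 1), (if m = r ∧ i = 0 ∧ a = 0 then C (N r 0) * T m i a else 0) =
          C (N r 0) * T r 0 0 := by
      rw [Finset.sum_eq_single r, Finset.sum_eq_single 0, Finset.sum_eq_single 0]
      · simp
      · intro a _ ha
        rw [if_neg]
        rintro ⟨_, _, h3⟩
        exact ha h3
      · intro hn
        exact absurd (Finset.mem_range.mpr (Nat.succ_pos h)) hn
      · intro i _ hi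
        apply Finset.sum_eq_zero
        intro a _
        rw [if_neg]
        rintro ⟨_, h3, _⟩
        exact hi h3
      · intro hn
        exact absurd (Finset.mem_range.mpr (Nat.succ_pos j)) hn
      · intro m _ hm
        apply Finset.sum_eq_zero
        intro i _
        apply Finset.sum_eq_zero
        intro a _
        rw [if_neg]
        rintro ⟨h3, _, _⟩
        exact hm h3
      · intro hn
        exact absurd (Finset.mem_range.mpr (Nat.lt_succ_self r)) hn
    rw [e3]
    have e4 : T r 0 0 = C q * homogeneousComponent h
        (shift β (homogeneousComponent (j + r) (shift α f))) := by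
      rw [hT]
      simp only [Nat.sub_zero]
      rw [ODA_hc0]
    rw [e4, ← mul_assoc, ← mul_assoc, ← C_mul, ← C_mul]
    have e5 : (N r 0 * q)⁻¹ * N r 0 * q = 1 := by
      rw [mul_assoc]
      exact inv_mul_cancel₀ (mul_ne_zero hN0 hq)
    rw [e5, C_1, one_mul]

end Pool.Agent.WD
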