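import Pool.Agent.helper66.WD.Spec
import Pool.Agent.helper22.VC.CST

universe u

namespace Pool.Agent.WD

open MvPolynomial Pool.Agent.helper92.VC

section comp

variable {σ : Type} {k : Type u} [CommRing k]

lemma ODC_mono_right {l : List (MvPolynomial σ k)} {a : MvPolynomial σ k} (l' : List (MvPolynomial σ k))
    (h : Avail l a) : Avail (l ++ l') a := by
  rcases h with h | h | h
  · exact Or.inl h
  · exact Or.inr (Or.inl h)
  · exact Or.inr (Or.inr (List.mem_append_left _ h))

lemma ODC_append {l l' : List (MvPolynomial σ k)} (h : SLP l) (h' : SLP l') : SLP (l ++ l') := by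
  induction h with
  | nil => simpa using h'
  | add l a b _ ha hb ih => exact SLP.add _ _ _ ih (ODC_mono_right _ ha) (ODC_mono_right _ hb)
  | sub l a b _ ha hb ih => exact SLP.sub _ _ _ ih (ODC_mono_right _ ha) (ODC_mono_right _ hb)
  | mul l a b _ ha hb ih => exact SLP.mul _ _ _ ih (ODC_mono_right _ ha) (ODC_mono_right _ hb)

lemma ODC_comp {a : MvPolynomial σ k} {s : ℕ} (h : ComputedIn a s) (S : Set (MvPolynomial σ k)) :
    CST_E S {a} s := by
  intro l hl _
  obtain ⟨l', h1, h2, h3⟩ := h
  refine ⟨l', ODC_append h1 hl, h2, ?_⟩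
  intro t ht
  rw [Set.mem_singleton_iff.1 ht]
  exact ODC_mono_right _ h3

end comp

/-- all pairs before the `N`-th one -/
def ODC_U {n : ℕ} {k : Type u} [Field k] (d : ℕ) (F : ℕ → ℕ → MvPolynomial (Fin n) k) (N : ℕ) :
    Set (MvPolynomial (Fin n) k) :=
  {x | ∃ t h : ℕ, h ≤ d ∧ t * (d + 1) + h < N ∧ x = F t h}

lemma ODC_step {n r d : ℕ} {k : Type u} [Field k] (M : ℕ → ℕ → ℕ → MvPolynomial (Fin n) k)
    (F : ℕ → ℕ → MvPolynomial (Fin n) k) (S : Set (MvPolynomial (Fin n) k))
    (hM : ∀ m ≤ r, ∀ i ≤ d, ∀ a ≤ d, M m i a ∈ S) (j h : ℕ) (hj : j + r ≤ d) (hh : h ≤ d)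
    (hF : ∀ t' h', h' ≤ d → (t' < j + r ∨ (t' = j + r ∧ h' < h)) → F t' h' ∈ S)
    (hrec : ∃ κ : ℕ → ℕ → ℕ → k, κ r 0 0 = 0 ∧
    F (j + r) h = ∑ m ∈ Finset.range (r + 1), ∑ i ∈ Finset.range (j + 1),
      ∑ a ∈ Finset.range (h + 1), C (κ m i a) * M m i a * F (j - i + m) (h - a)) :
    CST_E S {F (j + r) h} (5 * (r + 1) * (d + 1) ^ 2) := by
  obtain ⟨κ, hκ0, hκ⟩ := hrec
  rw [hκ]
  have hterm : ∀ m ∈ Finset.range (r + 1), ∀ i ∈ Finset.range (j + 1), ∀ a ∈ Finset.range (h + 1),
      CST_E S {C (κ m i a) * M m i a * F (j - i + m) (h - a)} 2 := by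
    intro m hm i hi a ha
    rw [Finset.mem_range] at hm hi ha
    by_cases h0 : m = r ∧ i = 0 ∧ a = 0
    · obtain ⟨rfl, rfl, rfl⟩ := h0
      rw [hκ0, C_0, zero_mul, zero_mul, ← C_0]
      exact CST_E_mono (CST_E_C S 0) subset_rfl subset_rfl (by omega)
    · have hFS : F (j - i + m) (h - a) ∈ S := by
        apply hF _ _ (by omega)
        rcases Nat.lt_or_ge m r with h1 | h1
        · left; omega
        · have h2 : m = r := by omega
          rcases Nat.eq_zero_or_pos i with h3 | h3
          · right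
            have h4 : a ≠ 0 := by
              intro h4
              exact h0 ⟨h2, h3, h4⟩
            omega
          · left; omega
      have h1 := CST_E_mul (CST_E_mul (CST_E_C S (κ m i a)) (CST_E_self (hM m (by omega) i (by omega) a (by omega))))
        (CST_E_self hFS)
      exact CST_E_mono h1 subset_rfl subset_rfl (by omega)
  have h1 := CST_E_sum (S := S) (Finset.range (r + 1))
    (fun m => ∑ i ∈ Finset.range (j + 1), ∑ a ∈ Finset.range (h + 1), C (κ m i a) * M m i a * F (j - i + m) (h - a))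
    ((j + 1) * ((h + 1) * 3 + 1)) (fun m hm => by
      have h2 := CST_E_sum (S := S) (Finset.range (j + 1))
        (fun i => ∑ a ∈ Finset.range (h + 1), C (κ m i a) * M m i a * F (j - i + m) (h - a))
        ((h + 1) * 3) (fun i hi => by
          have h3 := CST_E_sum (S := S) (Finset.range (h + 1))
            (fun a => C (κ m i a) * M m i a * F (j - i + m) (h - a)) 2 (fun a ha => hterm m hm i hi a ha)
          rw [Finset.card_range] at h3
          exact h3)
      rw [Finset.card_range] at h2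
      exact h2)
  rw [Finset.card_range] at h1
  refine CST_E_mono h1 subset_rfl subset_rfl ?_
  have h4 : (j + 1) * ((h + 1) * 3 + 1) + 1 ≤ 5 * (d + 1) ^ 2 := by
    have h5 : (j + 1) * ((h + 1) * 3 + 1) ≤ (d + 1) * ((d + 1) * 3 + 1) :=
      Nat.mul_le_mul (by omega) (by omega)
    nlinarith
  calc (r + 1) * ((j + 1) * ((h + 1) * 3 + 1) + 1) ≤ (r + 1) * (5 * (d + 1) ^ 2) := Nat.mul_le_mul_left _ h4
    _ = 5 * (r + 1) * (d + 1) ^ 2 := by ring

theorem ODC : ODC_stmt.{u} := by
  intro n r d s s' k _ M F hM hF hrec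
  set S₀ : Set (MvPolynomial (Fin n) k) :=
    ⋃ m ∈ Finset.range (r + 1), ⋃ i ∈ Finset.range (d + 1), ⋃ a ∈ Finset.range (d + 1), {M m i a} with hS₀
  set S₁ : Set (MvPolynomial (Fin n) k) :=
    ⋃ t ∈ Finset.range r, ⋃ h ∈ Finset.range (d + 1), {F t h} with hS₁
  have e0 : CST_E ∅ S₀ ((r + 1) * ((d + 1) * ((d + 1) * s))) := by
    have h1 := CST_E_iUnion (S := (∅ : Set (MvPolynomial (Fin n) k))) (Finset.range (r + 1))
      (fun m => ⋃ i ∈ Finset.range (d + 1), ⋃ a ∈ Finset.range (d + 1), {M m i a}) ((d + 1) * ((d + 1) * s))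
      (fun m hm => by
        have h2 := CST_E_iUnion (S := (∅ : Set (MvPolynomial (Fin n) k))) (Finset.range (d + 1))
          (fun i => ⋃ a ∈ Finset.range (d + 1), {M m i a}) ((d + 1) * s)
          (fun i hi => by
            have h3 := CST_E_iUnion (S := (∅ : Set (MvPolynomial (Fin n) k))) (Finset.range (d + 1))
              (fun a => {M m i a}) s (fun a ha => ODC_comp (hM m (Finset.mem_range_succ_iff.mp hm) i
                (Finset.mem_range_succ_iff.mp hi) a (Finset.mem_range_succ_iff.mp ha)) ∅)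
            rw [Finset.card_range] at h3
            exact h3)
        rw [Finset.card_range] at h2
        exact h2)
    rw [Finset.card_range] at h1
    exact h1
  have e1 : CST_E ∅ S₁ (r * ((d + 1) * s')) := by
    have h1 := CST_E_iUnion (S := (∅ : Set (MvPolynomial (Fin n) k))) (Finset.range r)
      (fun t => ⋃ h ∈ Finset.range (d + 1), {F t h}) ((d + 1) * s')
      (fun t ht => by
        have h2 := CST_E_iUnion (S := (∅ : Set (MvPolynomial (Fin n) k))) (Finset.range (d + 1))
          (fun h => {F t h}) s' (fun h hh => ODC_comp (hF t (Finset.mem_range.mp ht) h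
            (Finset.mem_range_succ_iff.mp hh)) ∅)
        rw [Finset.card_range] at h2
        exact h2)
    rw [Finset.card_range] at h1
    exact h1
  have hMS : ∀ m ≤ r, ∀ i ≤ d, ∀ a ≤ d, M m i a ∈ S₀ := by
    intro m hm i hi a ha
    rw [hS₀]
    simp only [Set.mem_iUnion]
    exact ⟨m, Finset.mem_range_succ_iff.mpr hm, i, Finset.mem_range_succ_iff.mpr hi, a,
      Finset.mem_range_succ_iff.mpr ha, rfl⟩
  have hFS : ∀ t < r, ∀ h ≤ d, F t h ∈ S₁ := by
    intro t ht h hh
    rw [hS₁]
    simp only [Set.mem_iUnion]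
    exact ⟨t, Finset.mem_range.mpr ht, h, Finset.mem_range_succ_iff.mpr hh, rfl⟩
  have e2 : ∀ N, N ≤ (d + 1) ^ 2 → CST_E (S₀ ∪ S₁) (ODC_U d F N) (N * (5 * (r + 1) * (d + 1) ^ 2)) := by
    intro N
    induction N with
    | zero =>
      intro _
      have h1 : ODC_U d F 0 = ∅ := by
        ext x
        simp [ODC_U]
      rw [h1]
      exact CST_E_mono (CST_E_empty _) subset_rfl subset_rfl (by omega)
    | succ N ih =>
      intro hN
      have ih1 := ih (by omega)
      set t := N / (d + 1) with ht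
      set h := N % (d + 1) with hh
      have hNth : (d + 1) * t + h = N := Nat.div_add_mod N (d + 1)
      have hhd : h ≤ d := by
        have := Nat.mod_lt N (Nat.succ_pos d)
        rw [← hh] at this
        omega
      have htd : t ≤ d := by
        by_contra hcon
        push Not at hcon
        have h1 : (d + 1) * (d + 1) ≤ (d + 1) * t := Nat.mul_le_mul_left _ hcon
        have h2 : (d + 1) ^ 2 = (d + 1) * (d + 1) := by ring
        omega
      have hstep : CST_E ((S₀ ∪ S₁) ∪ ODC_U d F N) {F t h} (5 * (r + 1) * (d + 1) ^ 2) := by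
        rcases Nat.lt_or_ge t r with h1 | h1
        · refine CST_E_mono (CST_E_self (S := (S₀ ∪ S₁) ∪ ODC_U d F N) (a := F t h) ?_) subset_rfl subset_rfl (Nat.zero_le _)
          exact Or.inl (Or.inr (hFS t h1 h hhd))
        · obtain ⟨j, hj⟩ := Nat.exists_eq_add_of_le' h1
          have h2 := ODC_step M F ((S₀ ∪ S₁) ∪ ODC_U d F N) (fun m hm i hi a ha => Or.inl (Or.inl (hMS m hm i hi a ha)))
            j h (by omega) hhd (fun t' h' hh' hlt => by
              right
              refine ⟨t', h', hh', ?_, rfl⟩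
              rcases hlt with h3 | ⟨h3, h4⟩
              · have h5 : (t' + 1) * (d + 1) ≤ t * (d + 1) := Nat.mul_le_mul_right _ (by omega)
                have h6 : (t' + 1) * (d + 1) = t' * (d + 1) + (d + 1) := by ring
                have h7 : (d + 1) * t = t * (d + 1) := by ring
                omega
              · have h7 : (d + 1) * t = t * (d + 1) := by ring
                have h8 : t' = t := by omega
                rw [h8]
                omega) (hrec j h)
          rw [← hj] at h2
          exact h2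
      have h3 := CST_E_trans ih1 hstep
      refine CST_E_mono h3 subset_rfl ?_ ?_
      · rintro x ⟨t', h', hh', hlt, rfl⟩
        rcases Nat.lt_or_ge (t' * (d + 1) + h') N with h4 | h4
        · left
          exact ⟨t', h', hh', h4, rfl⟩
        · right
          have h5 : t' * (d + 1) + h' = N := by omega
          have h6 : t' = t := by
            rw [ht, ← h5, mul_comm, Nat.mul_add_div (Nat.succ_pos d), Nat.div_eq_of_lt (by omega), add_zero]
          have h7 : h' = h := by
            rw [hh, ← h5, mul_comm, Nat.mul_add_mod, Nat.mod_eq_of_lt (by omega)]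
          rw [h6, h7]
          exact Set.mem_singleton _
      · apply le_of_eq
        ring
  have e3 := CST_E_trans (CST_E_union e0 e1) (CST_E_mono (e2 ((d + 1) ^ 2) le_rfl)
    Set.subset_union_right subset_rfl le_rfl)
  have e4 : CST_E (∅ ∪ ((S₀ ∪ S₁) ∪ ODC_U d F ((d + 1) ^ 2)))
      {∑ t ∈ Finset.range (d + 1), ∑ h ∈ Finset.range (d + 1), F t h} ((d + 1) * ((d + 1) * 1 + 1)) := by
    set S := (∅ ∪ ((S₀ ∪ S₁) ∪ ODC_U d F ((d + 1) ^ 2))) with hS
    have h1 := CST_E_sum (S := S) (Finset.range (d + 1)) (fun t => ∑ h ∈ Finset.range (d + 1), F t h)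
      ((d + 1) * 1) (fun t ht => by
        have h2 := CST_E_sum (S := S) (Finset.range (d + 1)) (fun h => F t h) 0 (fun h hh => by
          apply CST_E_self
          rw [hS]
          right; right
          rw [Finset.mem_range] at ht hh
          refine ⟨t, h, by omega, ?_, rfl⟩
          have h5 : t * (d + 1) ≤ d * (d + 1) := Nat.mul_le_mul_right _ (by omega)
          have h6 : (d + 1) ^ 2 = d * (d + 1) + (d + 1) := by ring
          omega)
        rw [Finset.card_range] at h2
        exact h2)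
    rw [Finset.card_range] at h1
    exact h1
  have e5 := CST_E_trans e3 e4
  obtain ⟨l', h1, h2, h3⟩ := e5 [] SLP.nil (fun s hs => absurd hs (Set.notMem_empty s))
  rw [List.append_nil] at h1 h3
  refine ⟨l', h1, le_trans h2 ?_, h3 _ (Or.inr (Set.mem_singleton _))⟩
  have h4 : (d + 1) * ((d + 1) * 1 + 1) ≤ 2 * (d + 1) ^ 2 := by nlinarith
  calc (r + 1) * ((d + 1) * ((d + 1) * s)) + r * ((d + 1) * s') + (d + 1) ^ 2 * (5 * (r + 1) * (d + 1) ^ 2) +
        (d + 1) * ((d + 1) * 1 + 1) ≤
      (r + 1) * ((d + 1) * ((d + 1) * s)) + r * ((d + 1) * s') + (d + 1) ^ 2 * (5 * (r + 1) * (d + 1) ^ 2) +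
        2 * (d + 1) ^ 2 := Nat.add_le_add_left h4 _
    _ = (r + 1) * (d + 1) ^ 2 * s + r * (d + 1) * s' + (d + 1) ^ 2 * (5 * (r + 1) * (d + 1) ^ 2 + 2) := by ring

end Pool.Agent.WD
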