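import Pool.Agent.helper66.WD.Spec

universe u

namespace Pool.Agent.WD

open MvPolynomial Pool.Agent.helper92.VC

lemma ODE_deg_shift {n : ℕ} {k : Type u} [Field k] (β : Fin n → k) (p : MvPolynomial (Fin n) k) :
    (shift β p).totalDegree ≤ p.totalDegree := by
  unfold shift
  rw [aeval_def, eval₂_eq]
  apply totalDegree_finsetSum_le
  intro d hd
  refine le_trans (totalDegree_mul _ _) ?_
  have h1 : (algebraMap k (MvPolynomial (Fin n) k) (coeff d p)).totalDegree = 0 := totalDegree_C _
  rw [h1, zero_add]
  refine le_trans (totalDegree_finsetProd _ _) ?_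
  refine le_trans ?_ (le_totalDegree hd)
  unfold Finsupp.sum
  refine Finset.sum_le_sum fun i _ => ?_
  refine le_trans (totalDegree_pow _ _) ?_
  have h2 : (X i + C (β i) : MvPolynomial (Fin n) k).totalDegree ≤ 1 := by
    refine le_trans (totalDegree_add _ _) ?_
    rw [totalDegree_C, totalDegree_X]
    simp
  calc d i * (X i + C (β i) : MvPolynomial (Fin n) k).totalDegree ≤ d i * 1 := Nat.mul_le_mul_left _ h2
    _ = d i := mul_one _

lemma ODE_deg_hc {n : ℕ} {k : Type u} [Field k] (h : ℕ) (p : MvPolynomial (Fin n) k) :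
    (homogeneousComponent h p).totalDegree ≤ p.totalDegree := by
  rcases Nat.lt_or_ge p.totalDegree h with h1 | h1
  · rw [homogeneousComponent_eq_zero h p h1, totalDegree_zero]
    exact Nat.zero_le _
  · exact le_trans (homogeneousComponent_isHomogeneous h p).totalDegree_le h1

lemma ODE_sum_hc {n : ℕ} {k : Type u} [Field k] (d : ℕ) (p : MvPolynomial (Fin n) k) (hp : p.totalDegree ≤ d) :
    ∑ i ∈ Finset.range (d + 1), homogeneousComponent i p = p := by
  conv_rhs => rw [← sum_homogeneousComponent p]
  symm
  apply Finset.sum_subset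
  · intro i hi
    rw [Finset.mem_range] at hi ⊢
    omega
  · intro i _ hi
    rw [Finset.mem_range] at hi
    exact homogeneousComponent_eq_zero i p (by omega)

lemma ODE_shift_shift {n : ℕ} {k : Type u} [Field k] (α β : Fin n → k) (p : MvPolynomial (Fin n) k) :
    shift (fun l => -(α l + β l)) (shift β (shift α p)) = p := by
  have h : ((shift (fun l => -(α l + β l)) : MvPolynomial (Fin n) k →ₐ[k] MvPolynomial (Fin n) k).comp
      ((shift β).comp (shift α))) = AlgHom.id k (MvPolynomial (Fin n) k) := by
    apply MvPolynomial.algHom_ext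
    intro i
    simp only [AlgHom.comp_apply, AlgHom.id_apply]
    unfold shift
    simp only [aeval_X, map_add, algHom_C, algebraMap_eq]
    have h1 : (C (-(α i + β i)) : MvPolynomial (Fin n) k) = -(C (α i) + C (β i)) := by
      rw [map_neg, map_add]
    rw [h1]
    ring
  have h2 := congrArg (fun g : MvPolynomial (Fin n) k →ₐ[k] MvPolynomial (Fin n) k => g p) h
  exact h2

theorem ODE (hODA : ODA_stmt.{u}) (hODC : ODC_stmt.{u}) (hSDG : SDG_stmt.{u}) (hSUB : SUB_stmt.{u}) : ODE_stmt.{u} := by
  intro n r d s k _ _ f α β c hf hrel hq hc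
  set F : ℕ → ℕ → MvPolynomial (Fin n) k := fun t h =>
    homogeneousComponent h (shift β (homogeneousComponent t (shift α f))) with hF
  have h1 := hODC n r d s ((n + 1) ^ r * (r + 2)) k
    (fun m i a => homogeneousComponent a (shift β (PowerSeries.coeff i (c m)))) F hc
    (fun t ht h _ => by
      apply hSDG
      calc (F t h).totalDegree ≤ (shift β (homogeneousComponent t (shift α f))).totalDegree := ODE_deg_hc _ _
        _ ≤ (homogeneousComponent t (shift α f)).totalDegree := ODE_deg_shift _ _
        _ ≤ t := (homogeneousComponent_isHomogeneous t _).totalDegree_le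
        _ ≤ r := ht.le)
    (fun j h => hODA n r k f α β c hrel hq j h)
  have h2 : ∑ t ∈ Finset.range (d + 1), ∑ h ∈ Finset.range (d + 1), F t h = shift β (shift α f) := by
    have e1 : ∀ t ∈ Finset.range (d + 1), ∑ h ∈ Finset.range (d + 1), F t h =
        shift β (homogeneousComponent t (shift α f)) := by
      intro t ht
      rw [Finset.mem_range] at ht
      apply ODE_sum_hc
      calc (shift β (homogeneousComponent t (shift α f))).totalDegree ≤ (homogeneousComponent t (shift α f)).totalDegree := ODE_deg_shift _ _
        _ ≤ t := (homogeneousComponent_isHomogeneous t _).totalDegree_le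
        _ ≤ d := by omega
    rw [Finset.sum_congr rfl e1, ← map_sum]
    rw [ODE_sum_hc d (shift α f) (le_trans (ODE_deg_shift _ _) hf)]
  rw [h2] at h1
  have h3 := hSUB n _ k _ (fun l => -(α l + β l)) h1
  rw [ODE_shift_shift] at h3
  unfold obound
  exact h3

end Pool.Agent.WD
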