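import Pool.Agent.helper66.WD.Spec

universe u

namespace Pool.Agent.WD

open MvPolynomial Pool.Agent.helper92.VC

lemma RED_hh {B B' : Type u} [CommRing B] [CommRing B'] (σ : B →+* B') (d : B → B) (d' : B' → B')
    (hd : ∀ b, σ (d b) = d' (σ b)) {c w : ℕ} (A : Fin c → B) (P : Fin w → B) (a : Fin c → ℕ) (p : Fin w → ℕ) :
    σ (hh d A P a p) = hh d' (fun j => σ (A j)) (fun j => σ (P j)) a p := by
  unfold hh
  simp only [map_add, map_mul, map_sum, map_prod, map_natCast, hd]

lemma RED_iter {B B' : Type u} [CommRing B] [CommRing B'] (σ : B →+* B') (d : B → B) (d' : B' → B')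
    (hd : ∀ b, σ (d b) = d' (σ b)) (m : ℕ) (b : B) : σ (d^[m] b) = d'^[m] (σ b) := by
  induction m generalizing b with
  | zero => rfl
  | succ m ih =>
    rw [Function.iterate_succ_apply, Function.iterate_succ_apply, ih, hd]

lemma RED_cmp0 (hCMP : CMP_stmt.{u}) (hHHL : HHL_stmt.{u}) {B B' : Type u} [CommRing B] [CommRing B']
    (σ : B →+* B') (d : B → B) (d' : B' → B') (hd : IsDer d) (hd' : IsDer d') (hc : ∀ b, σ (d b) = d' (σ b))
    {c w : ℕ} (A : Fin c → B) (P : Fin w → B) (A' : Fin c → B') (P' : Fin w → B')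
    (hA : ∀ j, σ (A j) = A' j) (hP : ∀ j, σ (P j) = P' j) (y : Fin w → B') (hy : ∀ j, P' j * y j = 1)
    (a : Fin c → Fin c → ℕ) (p : Fin c → Fin w → ℕ) (L : List (Fin c)) (m : ℕ) :
    σ ((run d ((∏ j, A j) * ∏ j, P j) (fun i => hh d A P (a i) (p i)) L).2 m) =
    (∏ j, P' j) ^ (2 ^ L.length - 1) *
      (run d' (∏ j, A' j) (fun i => hl d' A' P' y (a i) (p i)) L).2 m := by
  have e2 : (fun j => σ (A j)) = A' := funext hA
  have e3 : (fun j => σ (P j)) = P' := funext hP
  have h1 : σ ((∏ j, A j) * ∏ j, P j) = (∏ j, P' j) * ∏ j, A' j := by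
    rw [map_mul, map_prod, map_prod, mul_comm, ← e2, ← e3]
  have h2 : ∀ i, σ (hh d A P (a i) (p i)) = (∏ j, P' j) * hl d' A' P' y (a i) (p i) := by
    intro i
    rw [RED_hh σ d d' hc, e2, e3]
    exact hHHL _ d' c w _ _ y (a i) (p i) hy
  exact (hCMP _ _ σ d d' hd hd' hc c _ _ _ _ _ h1 h2 L).2 m

lemma RED_cmp (hCMP : CMP_stmt.{u}) (hHHL : HHL_stmt.{u}) (hDER : DER_stmt.{u}) {K : Type u} [Field K]
    {n c w : ℕ} (α : Fin n → K) (A : Fin c → MvPolynomial (Fin n) K) (P : Fin w → MvPolynomial (Fin n) K)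
    (y : Fin w → PowerSeries (MvPolynomial (Fin n) K)) (hy : ∀ j, line α (P j) * y j = 1)
    (a : Fin c → Fin c → ℕ) (p : Fin c → Fin w → ℕ) (L : List (Fin c)) (m : ℕ) :
    line2 α ((run DD ((∏ j, emb (A j)) * ∏ j, emb (P j))
      (fun i => hh DD (fun j => emb (A j)) (fun j => emb (P j)) (a i) (p i)) L).2 m) =
    (∏ j, line α (P j)) ^ (2 ^ L.length - 1) *
      (run dz (∏ j, line α (A j)) (fun i => hl dz (fun j => line α (A j)) (fun j => line α (P j)) y (a i) (p i)) L).2 m := by
  obtain ⟨dDDK, ddzK, _, dl2K, dl2eK, _, _⟩ := hDER n K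
  obtain ⟨σ, hσ⟩ : ∃ σ : MvPolynomial (Fin n ⊕ Fin n) K →+* PowerSeries (MvPolynomial (Fin n) K),
      ∀ q, σ q = line2 α q := ⟨((line2 α : MvPolynomial (Fin n ⊕ Fin n) K →ₐ[K] PowerSeries (MvPolynomial (Fin n) K)) :
        MvPolynomial (Fin n ⊕ Fin n) K →+* PowerSeries (MvPolynomial (Fin n) K)), fun q => rfl⟩
  rw [← hσ]
  exact RED_cmp0 hCMP hHHL σ DD dz dDDK ddzK (fun b => by rw [hσ, hσ, dl2K]) (fun j => emb (A j)) (fun j => emb (P j))
    (fun j => line α (A j)) (fun j => line α (P j)) (fun j => by rw [hσ, dl2eK]) (fun j => by rw [hσ, dl2eK]) y hy a p L m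

theorem RED (hEXR : EXR_stmt.{u}) (hNRM : NRM_stmt.{u}) (hGEN : GEN_stmt.{u}) (hCMP : CMP_stmt.{u}) (hHHL : HHL_stmt.{u}) (hDER : DER_stmt.{u}) (hDEM : DEM_stmt.{u}) : RED_stmt.{u} := by
  classical
  intro R K k _ _ _ _ _ _ _ _ π hsurj hunit n c w f A P κ a p hA hP hf
  have hinj : Function.Injective (algebraMap R K) := IsFractionRing.injective R K
  have hminj : ∀ σ : Type, Function.Injective (MvPolynomial.map (σ := σ) (algebraMap R K)) :=
    fun σ => MvPolynomial.map_injective _ hinj
  have hP0 : ∀ j, P j ≠ 0 := by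
    intro j h
    apply hP j
    rw [h, map_zero]
  have hPK : ∀ j, MvPolynomial.map (algebraMap R K) (P j) ≠ 0 := by
    intro j h
    apply hP0 j
    apply hminj (Fin n)
    rw [h, map_zero]
  obtain ⟨L, hLc, hLtop, hLrel⟩ := hEXR K n c w A (fun j => MvPolynomial.map (algebraMap R K) (P j)) κ a p hA hPK
  rw [← hf] at hLrel
  set Cf : ℕ → MvPolynomial (Fin n ⊕ Fin n) K := fun m =>
    (run DD ((∏ j, emb (A j)) * ∏ j, emb (MvPolynomial.map (algebraMap R K) (P j)))
      (fun i => hh DD (fun j => emb (A j)) (fun j => emb (MvPolynomial.map (algebraMap R K) (P j))) (a i) (p i)) L).2 m with hCf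
  obtain ⟨lam, F', hlam, hF', hex⟩ := hNRM R K k π (Fin n ⊕ Fin n) L.length Cf ⟨L.length, le_rfl, hLtop⟩
  obtain ⟨dDD, ddz, dC, dl2, dl2e, dev, dl0⟩ := hDER n R
  obtain ⟨dDDK, ddzK, dCK, dl2K, dl2eK, devK, dl0K⟩ := hDER n K
  obtain ⟨dDDk, ddzk, dCk, dl2k, dl2ek, devk, dl0k⟩ := hDER n k
  obtain ⟨mDD, memb, mdz, ml2, ml, msh, mhc⟩ := hDEM n R K (algebraMap R K)
  obtain ⟨pDD, pemb, pdz, pl2, pl, psh, phc⟩ := hDEM n R k π
  -- the relation over R
  have hR : ∑ m ∈ Finset.range (L.length + 1), F' m * DD^[m] (emb f) = 0 := by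
    apply hminj (Fin n ⊕ Fin n)
    rw [map_sum, map_zero]
    have e1 : ∀ m ∈ Finset.range (L.length + 1),
        MvPolynomial.map (algebraMap R K) (F' m * DD^[m] (emb f)) =
        C lam * (Cf m * DD^[m] (emb (MvPolynomial.map (algebraMap R K) f))) := by
      intro m hm
      rw [map_mul, hF' m (Finset.mem_range_succ_iff.mp hm),
        RED_iter (MvPolynomial.map (algebraMap R K)) DD DD mDD m, memb, mul_assoc]
    rw [Finset.sum_congr rfl e1, ← Finset.mul_sum]
    have e2 : ∑ m ∈ Finset.range (L.length + 1), Cf m * DD^[m] (emb (MvPolynomial.map (algebraMap R K) f)) = 0 := hLrel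
    rw [e2, mul_zero]
  -- the top index over k
  set r := Nat.findGreatest (fun m => MvPolynomial.map π (F' m) ≠ 0) L.length with hr
  obtain ⟨m₀, hm₀, hm₀'⟩ := hex
  have hr1 : MvPolynomial.map π (F' r) ≠ 0 :=
    Nat.findGreatest_spec (P := fun m => MvPolynomial.map π (F' m) ≠ 0) hm₀ hm₀'
  have hr2 : r ≤ L.length := Nat.findGreatest_le _
  have hr3 : ∀ m, r < m → m ≤ L.length → MvPolynomial.map π (F' m) = 0 := by
    intro m h1 h2
    have := Nat.findGreatest_is_greatest (P := fun m => MvPolynomial.map π (F' m) ≠ 0) (hr ▸ h1) h2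
    push Not at this
    exact this
  have hk : ∑ m ∈ Finset.range (r + 1), MvPolynomial.map π (F' m) * DD^[m] (emb (MvPolynomial.map π f)) = 0 := by
    have e1 := congrArg (MvPolynomial.map π) hR
    rw [map_sum, map_zero] at e1
    rw [← e1]
    have e2 : ∀ m ∈ Finset.range (L.length + 1), MvPolynomial.map π (F' m * DD^[m] (emb f)) =
        MvPolynomial.map π (F' m) * DD^[m] (emb (MvPolynomial.map π f)) := by
      intro m _
      rw [map_mul, RED_iter (MvPolynomial.map π) DD DD pDD m, pemb]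
    rw [Finset.sum_congr rfl e2]
    apply Finset.sum_subset
    · intro m hm
      rw [Finset.mem_range] at hm ⊢
      omega
    · intro m hm1 hm2
      rw [Finset.mem_range] at hm1 hm2
      rw [hr3 m (by omega) (by omega), zero_mul]
  -- a point
  have hq : MvPolynomial.map π (F' r) * ∏ j, emb (MvPolynomial.map π (P j)) ≠ 0 := by
    apply mul_ne_zero hr1
    rw [Finset.prod_ne_zero_iff]
    intro j _ h
    apply hP j
    have hei : Function.Injective (emb : MvPolynomial (Fin n) k →ₐ[k] MvPolynomial (Fin n ⊕ Fin n) k) :=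
      rename_injective _ Sum.inl_injective
    apply hei
    rw [h, map_zero]
  obtain ⟨α₀, β₀, hαβ⟩ := hGEN k n _ hq
  have hα' : ∀ l, ∃ x : R, π x = α₀ l := fun l => hsurj (α₀ l)
  have hβ' : ∀ l, ∃ x : R, π x = β₀ l := fun l => hsurj (β₀ l)
  choose α hα using hα'
  choose β hβ using hβ'
  have hαe : (fun l => π (α l)) = α₀ := funext hα
  have hβe : (fun l => π (β l)) = β₀ := funext hβ
  rw [map_mul, map_prod] at hαβ
  have hv1 : eval (Sum.elim α₀ β₀) (MvPolynomial.map π (F' r)) ≠ 0 := left_ne_zero_of_mul hαβ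
  have hv2 : ∀ j, eval (Sum.elim α₀ β₀) (emb (MvPolynomial.map π (P j))) ≠ 0 := by
    have h1 := right_ne_zero_of_mul hαβ
    rw [Finset.prod_ne_zero_iff] at h1
    exact fun j => h1 j (Finset.mem_univ j)
  -- inverses
  have hinv : ∀ j, ∃ z : PowerSeries (MvPolynomial (Fin n) R), line α (P j) * z = 1 := by
    intro j
    have h1 : eval α₀ (MvPolynomial.map π (P j)) ≠ 0 := by
      have h2 := hv2 j
      have h3 := devk α₀ β₀ (emb (MvPolynomial.map π (P j)))
      rw [dl2ek, dl0k, eval_C] at h3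
      rw [h3]
      exact h2
    have h2 : π (eval α (P j)) ≠ 0 := by
      have h3 : π (eval α (P j)) = eval α₀ (MvPolynomial.map π (P j)) := by
        rw [← hαe, eval_map, ← eval₂_id, eval₂_comp_left, RingHom.comp_id]
        rfl
      rw [h3]
      exact h1
    have h3 : IsUnit (line α (P j)) := by
      rw [PowerSeries.isUnit_iff_constantCoeff, ← PowerSeries.coeff_zero_eq_constantCoeff_apply, dl0]
      exact (hunit _ h2).map (C : R →+* MvPolynomial (Fin n) R)
    obtain ⟨z, hz⟩ := h3.exists_right_inv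
    exact ⟨z, hz⟩
  choose y' hy' using hinv
  set U' := ∏ j, y' j with hU'
  set e := 2 ^ L.length - 1 with he
  have hUU : (∏ j, line α (P j)) * U' = 1 := by
    rw [hU', ← Finset.prod_mul_distrib]
    exact Finset.prod_eq_one fun j _ => hy' j
  refine ⟨r, L, α, β, lam, fun m => line2 α (F' m) * U' ^ e,
    fun j => PowerSeries.map (MvPolynomial.map (algebraMap R K)) (y' j), hr2, hLc, ?_, ?_, ?_, ?_⟩
  · -- the equation over k
    have e1 : ∀ m ∈ Finset.range (r + 1), PowerSeries.map (MvPolynomial.map π) (line2 α (F' m) * U' ^ e) *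
        dz^[m] (line (fun l => π (α l)) (MvPolynomial.map π f)) =
        line2 (fun l => π (α l)) (MvPolynomial.map π (F' m) * DD^[m] (emb (MvPolynomial.map π f))) *
          PowerSeries.map (MvPolynomial.map π) (U' ^ e) := by
      intro m _
      rw [map_mul, pl2, map_mul]
      have e2 : line2 (fun l => π (α l)) (DD^[m] (emb (MvPolynomial.map π f))) =
          dz^[m] (line (fun l => π (α l)) (MvPolynomial.map π f)) := by
        have e3 := RED_iter ((line2 (fun l => π (α l))).toRingHom :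
          MvPolynomial (Fin n ⊕ Fin n) k →+* PowerSeries (MvPolynomial (Fin n) k)) DD dz
          (fun b => (dl2k (fun l => π (α l)) b).symm) m (emb (MvPolynomial.map π f))
        rw [← dl2ek]
        exact e3
      rw [e2]
      ring
    rw [Finset.sum_congr rfl e1, ← Finset.sum_mul, ← map_sum, hk, map_zero, zero_mul]
  · -- the leading coefficient
    have e0 : ∀ φ : PowerSeries (MvPolynomial (Fin n) k), PowerSeries.coeff 0 φ = PowerSeries.constantCoeff φ :=
      fun φ => PowerSeries.coeff_zero_eq_constantCoeff_apply φ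
    have e1 : eval (fun l => π (β l)) (PowerSeries.coeff 0
        (PowerSeries.map (MvPolynomial.map π) (line2 α (F' r) * U' ^ e))) =
        eval (Sum.elim α₀ β₀) (MvPolynomial.map π (F' r)) *
          (eval (fun l => π (β l)) (PowerSeries.coeff 0 (PowerSeries.map (MvPolynomial.map π) U'))) ^ e := by
      rw [← devk, ← hαe, hβe, map_mul, pl2]
      simp only [e0, map_mul, map_pow]
    rw [e1]
    apply mul_ne_zero hv1
    apply pow_ne_zero
    intro hzero
    have e2 := congrArg (fun φ => eval (fun l => π (β l)) (PowerSeries.coeff 0 (PowerSeries.map (MvPolynomial.map π) φ))) hUU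
    simp only [map_mul, e0, map_one] at e2
    rw [e0] at hzero
    rw [hzero, mul_zero] at e2
    exact zero_ne_one e2
  · intro j
    rw [← ml, ← map_mul, hy' j, map_one]
  · intro m hm
    set αK : Fin n → K := fun l => algebraMap R K (α l) with hαK
    set yK : Fin w → PowerSeries (MvPolynomial (Fin n) K) :=
      fun j => PowerSeries.map (MvPolynomial.map (algebraMap R K)) (y' j) with hyK
    have hyK' : ∀ j, line αK (MvPolynomial.map (algebraMap R K) (P j)) * yK j = 1 := by
      intro j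
      rw [hyK, hαK]
      simp only
      rw [← ml, ← map_mul, hy' j, map_one]
    have h2 : line2 αK (Cf m) = (∏ j, line αK (MvPolynomial.map (algebraMap R K) (P j))) ^ e *
        (run dz (∏ j, line αK (A j)) (fun i => hl dz (fun j => line αK (A j))
          (fun j => line αK (MvPolynomial.map (algebraMap R K) (P j))) yK (a i) (p i)) L).2 m :=
      RED_cmp hCMP hHHL hDER αK A (fun j => MvPolynomial.map (algebraMap R K) (P j)) yK hyK' a p L m
    rw [map_mul, ml2, hF' m (le_trans hm hr2), map_mul, h2, map_pow]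
    have h3 : line2 αK (C lam) = PowerSeries.C (C lam) := by
      rw [algHom_C, PowerSeries.algebraMap_apply, algebraMap_eq]
    rw [h3]
    have h4 : (∏ j, line αK (MvPolynomial.map (algebraMap R K) (P j))) *
        PowerSeries.map (MvPolynomial.map (algebraMap R K)) U' = 1 := by
      have h5 := congrArg (PowerSeries.map (MvPolynomial.map (algebraMap R K))) hUU
      rw [map_mul, map_prod, map_one] at h5
      rw [← h5]
      congr 1
      exact Finset.prod_congr rfl fun j _ => (ml α (P j)).symm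
    have h5 : (∏ j, line αK (MvPolynomial.map (algebraMap R K) (P j))) ^ e *
        (PowerSeries.map (MvPolynomial.map (algebraMap R K)) U') ^ e = 1 := by
      rw [← mul_pow, h4, one_pow]
    calc _ = PowerSeries.C (C lam) * (run dz (∏ j, line αK (A j)) (fun i => hl dz (fun j => line αK (A j))
          (fun j => line αK (MvPolynomial.map (algebraMap R K) (P j))) yK (a i) (p i)) L).2 m *
          ((∏ j, line αK (MvPolynomial.map (algebraMap R K) (P j))) ^ e *
        (PowerSeries.map (MvPolynomial.map (algebraMap R K)) U') ^ e) := by ring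
      _ = _ := by rw [h5, mul_one]

end Pool.Agent.WD
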